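import Pool.Agent.Helper57.REC.Stmts6b
import Pool.Agent.Helper3.MU.TRC
import Pool.Agent.Helper22.MU.FRE

/-!
# INC: the cyclotomic character on the inertia groups over `l`
-/

set_option autoImplicit false
set_option maxHeartbeats 800000

open NumberField

namespace REC

open MU

section

variable {F : Type} [Field F] [NumberField F]

/-- the inertia group at `𝔓` -/
def incI (𝔓 : Ideal (Zb F)) : Subgroup (GalQ F) where
  carrier := {σ | CP 𝔓 1 σ}
  one_mem' := congPow_one 𝔓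
  mul_mem' := by
    intro a b ha hb
    have := congPow_mul 𝔓 1 1 a b ha hb
    rw [mul_one] at this
    exact this
  inv_mem' := by
    intro a ha
    exact congPow_inv 𝔓 a ha

theorem inc_mem (𝔓 : Ideal (Zb F)) (σ : GalQ F) : σ ∈ incI 𝔓 ↔ CP 𝔓 1 σ := Iff.rfl

/-- evaluation at an algebraic number is locally constant -/
theorem inc_loc (x : AlgebraicClosure F) (σ : GalQ F) :
    ∀ᶠ τ in nhds σ, τ x = σ x := by
  have hgal := fre_isGalois F
  have hfd : FiniteDimensional ℚ (IntermediateField.adjoin ℚ {x}) :=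
    IntermediateField.adjoin.finiteDimensional (Algebra.IsIntegral.isIntegral x)
  have hop : IsOpen ((IntermediateField.adjoin ℚ {x}).fixingSubgroup : Set (GalQ F)) :=
    (IntermediateField.adjoin ℚ {x}).fixingSubgroup_isOpen
  have h1 : {τ : GalQ F | σ⁻¹ * τ ∈ (IntermediateField.adjoin ℚ {x}).fixingSubgroup} ∈ nhds σ := by
    have hcont : Continuous (fun τ : GalQ F => σ⁻¹ * τ) := continuous_const.mul continuous_id
    have h2 := hop.preimage hcont
    apply h2.mem_nhds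
    show σ⁻¹ * σ ∈ (IntermediateField.adjoin ℚ {x}).fixingSubgroup
    rw [inv_mul_cancel]
    exact Subgroup.one_mem _
  filter_upwards [h1] with τ hτ
  have h3 := (IntermediateField.mem_fixingSubgroup_iff _ _).1 hτ x
    (IntermediateField.mem_adjoin_simple_self ℚ x)
  have h4 : σ ((σ⁻¹ * τ) x) = σ x := by rw [h3]
  rw [← h4]
  show τ x = (σ * (σ⁻¹ * τ)) x
  rw [mul_inv_cancel_left]

theorem inc_closed (𝔓 : Ideal (Zb F)) : IsClosed (incI 𝔓 : Set (GalQ F)) := by
  rw [← isOpen_compl_iff, isOpen_iff_mem_nhds]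
  intro σ hσ
  have h1 : ¬ CP 𝔓 1 σ := hσ
  rw [congPow_iff, not_forall] at h1
  obtain ⟨x, hx⟩ := h1
  filter_upwards [inc_loc (x : AlgebraicClosure F) σ] with τ hτ
  intro h2
  apply hx
  have h3 := (congPow_iff 𝔓 1 τ).1 h2 x
  have h4 : sm τ x = sm σ x := Subtype.ext hτ
  rw [← h4]
  exact h3

end

theorem st_INC (hINR : MU.ST_INR) (hFRE : MU.ST_FRE) (hCYC : MU.ST_CYC) (hIDX : MU.ST_IDX) :
    ST_INC := by
  intro F _ _ l hl 𝔓 h𝔓 H hH
  have hgal := fre_isGalois F
  have hcomp : CompactSpace (GalQ F) := inferInstance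
  let χ : GalQ F →* ℤ_[l]ˣ := cyc l ℚ
  have hχc : Continuous χ := cyc_continuous l
  let N : Subgroup (GalQ F) := ((incI 𝔓).map χ).comap χ
  have hN : N = ⊤ := by
    apply hINR F N
    · exact ⟨fun n hn g => by
        show χ (g * n * g⁻¹) ∈ (incI 𝔓).map χ
        rw [map_mul, map_mul, map_inv, mul_comm (χ g) (χ n), mul_inv_cancel_right]
        exact hn⟩
    · have h1 : IsCompact (((incI 𝔓).map χ : Subgroup ℤ_[l]ˣ) : Set ℤ_[l]ˣ) := by
        rw [Subgroup.coe_map]
        exact (inc_closed 𝔓).isCompact.image hχc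
      exact h1.isClosed.preimage hχc
    · intro p hp 𝔔 h𝔔 σ hσ
      by_cases hpl : p = l
      · subst hpl
        obtain ⟨g, hg⟩ := (hFRE F p hp).2 𝔓 𝔔 h𝔓 h𝔔
        have h1 : 𝔓 = tp g 𝔔 := by
          ext x
          exact hg x (sm g x) rfl
        have h2 := congPow_conj 𝔔 1 σ g hσ
        rw [← h1] at h2
        refine ⟨g⁻¹ * σ * g, h2, ?_⟩
        rw [map_mul, map_mul, map_inv, mul_comm (χ g)⁻¹ (χ σ), inv_mul_cancel_right]
      · refine ⟨1, (incI 𝔓).one_mem, ?_⟩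
        rw [map_one]
        have h1 := hCYC F ℚ l p hp hpl 𝔔 h𝔔 0 σ (by
          rw [pow_zero]
          exact hσ)
        rw [pow_zero] at h1
        symm
        apply Units.ext
        exact h1
  -- a prime different from `l`
  obtain ⟨p, hpgt, hp⟩ := Nat.exists_infinite_primes (l + 1)
  have hpl : p ≠ l := by omega
  obtain ⟨𝔔, h𝔔, φ, hφ⟩ := (hFRE F p hp).1
  have h1 := hCYC F ℚ l p hp hpl 𝔔 h𝔔 1 φ (by
    rw [pow_one]
    exact hφ)
  rw [pow_one] at h1
  have h2 : φ ∈ N := by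
    rw [hN]
    exact Subgroup.mem_top _
  obtain ⟨σ, hσI, hσ⟩ := h2
  obtain ⟨H₀, e, he, hopen, hec, hesc, hidx⟩ := hIDX F
  let H' : Subgroup (GalQ F) := (H.comap e.symm.toMonoidHom).map H₀.subtype
  have hH' : IsOpen (H' : Set (GalQ F)) := by
    have h3 : IsOpen ((fun g : H₀ => e.symm g) ⁻¹' (H : Set (Gal F))) := hH.preimage hesc
    have h4 := hopen.isOpenMap_subtype_val _ h3
    have h5 : (H' : Set (GalQ F)) =
        Subtype.val '' ((fun g : H₀ => e.symm g) ⁻¹' (H : Set (Gal F))) := rfl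
    rw [h5]
    exact h4
  have hfq : Finite (GalQ F ⧸ H') := Subgroup.quotient_finite_of_isOpen H' hH'
  have hfi : H'.FiniteIndex := Subgroup.finiteIndex_of_finite_quotient
  obtain ⟨k, hk0, hk1, hk2⟩ := Subgroup.exists_pow_mem_of_index_ne_zero hfi.index_ne_zero σ
  obtain ⟨g, hg1, hg2⟩ := hk2
  refine ⟨e.symm g, hg1, ?_, ?_⟩
  · apply congPow_esymm H₀ e he
    have h6 : ((g : H₀) : GalQ F) = σ ^ k := hg2
    rw [h6]
    have h7 := congPow_pow 𝔓 1 σ hσI k
    rw [one_pow] at h7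
    exact h7
  · intro K hK hcy
    have h6 : ((g : H₀) : GalQ F) = σ ^ k := hg2
    rw [cyc_esymm l H₀ e he, h6] at hcy
    have h7 : χ (σ ^ k) ^ K = 1 := hcy
    rw [map_pow, hσ, ← pow_mul] at h7
    have h8 : ((χ φ : ℤ_[l]ˣ) : ℤ_[l]) ^ (k * K) = 1 := by
      have h9 := congrArg (fun u : ℤ_[l]ˣ => (u : ℤ_[l])) h7
      simp only [Units.val_pow_eq_pow_val, Units.val_one] at h9
      exact h9
    have h10 : ((χ φ : ℤ_[l]ˣ) : ℤ_[l]) = (p : ℤ_[l]) := h1
    rw [h10] at h8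
    have h11 : ((p ^ (k * K) : ℕ) : ℤ_[l]) = ((1 : ℕ) : ℤ_[l]) := by
      push_cast
      exact h8
    have h12 : p ^ (k * K) = 1 := Nat.cast_injective h11
    have h13 : 1 < p ^ (k * K) := Nat.one_lt_pow (by positivity) hp.one_lt
    omega

end REC
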